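import Pool.Agent.helper82.VD.SpecG

/-!
# MP_07c750, project VD, row GSB (section Bowen balls)
-/

set_option autoImplicit false

open MeasureTheory Filter Set Topology Pool.Agent.VDE
open scoped ENNReal

namespace Pool.Agent.VDG

theorem GSB_zero {m : ℕ} (F : ℕ → EE m → EE m) (ρ : ℝ) : SB F 0 ρ = Metric.closedBall 0 ρ := by
  ext a
  rw [mem_closedBall_zero_iff]
  constructor
  · intro h
    exact h 0 le_rfl
  · intro h i hi
    obtain rfl : i = 0 := by omega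
    exact h

theorem GSB_sub {m : ℕ} (F : ℕ → EE m → EE m) (n : ℕ) (ρ : ℝ) : SB F n ρ ⊆ Metric.closedBall 0 ρ := by
  intro a h
  rw [mem_closedBall_zero_iff]
  exact h 0 (Nat.zero_le _)

theorem GSB_succ {m : ℕ} (F : ℕ → EE m → EE m) (n : ℕ) (ρ : ℝ) :
    SB F (n + 1) ρ = SB F n ρ ∩ itr F (n + 1) ⁻¹' Metric.closedBall 0 ρ := by
  ext a
  constructor
  · intro h
    exact ⟨fun i hi => h i (by omega), mem_closedBall_zero_iff.2 (h (n + 1) le_rfl)⟩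
  · rintro ⟨h1, h2⟩ i hi
    rcases Nat.lt_or_ge i (n + 1) with h | h
    · exact h1 i (by omega)
    · obtain rfl : i = n + 1 := by omega
      exact mem_closedBall_zero_iff.1 h2

theorem GSB_cl {m : ℕ} {H : (EE m → EE m) → Prop} {C1 ρ0 : ℝ} (hH : HB H C1 ρ0) (F : ℕ → EE m → EE m) {ρ : ℝ} (hρ : ρ ≤ ρ0) (n : ℕ)
    (hF : ∀ i < n, H (F i)) : IsClosed (SB F n ρ) ∧ ContinuousOn (itr F n) (SB F n ρ) := by
  induction n with
  | zero =>
    rw [GSB_zero]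
    refine ⟨Metric.isClosed_closedBall, ?_⟩
    exact continuousOn_id
  | succ n ih =>
    obtain ⟨h1, h2⟩ := ih fun i hi => hF i (by omega)
    have h3 : ContinuousOn (F n) (Metric.closedBall 0 ρ0) := by
      have h4 : LipschitzOnWith (Real.toNNReal C1) (F n) (Metric.closedBall 0 ρ0) := by
        apply LipschitzOnWith.of_dist_le_mul
        intro x hx y hy
        rw [dist_eq_norm, dist_eq_norm, Real.coe_toNNReal _ (zero_le_one.trans hH.hC)]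
        exact hH.lip (F n) (hF n (by omega)) x y (mem_closedBall_zero_iff.1 hx) (mem_closedBall_zero_iff.1 hy)
      exact h4.continuousOn
    have h5 : ContinuousOn (itr F (n + 1)) (SB F n ρ) := by
      have h6 : MapsTo (itr F n) (SB F n ρ) (Metric.closedBall 0 ρ0) := by
        intro a ha
        exact mem_closedBall_zero_iff.2 ((ha n le_rfl).trans hρ)
      exact h3.comp h2 h6
    rw [GSB_succ]
    exact ⟨h5.preimage_isClosed_of_isClosed h1 Metric.isClosed_closedBall, h5.mono inter_subset_left⟩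

theorem GSB_ball {m : ℕ} {H : (EE m → EE m) → Prop} {C1 ρ0 : ℝ} (hH : HB H C1 ρ0) (F : ℕ → EE m → EE m) {ρ : ℝ} (hρ : ρ ≤ ρ0)
    (hF : ∀ i, H (F i) ∧ F i 0 = 0) (k : ℕ) (hk : k ≤ 2) : Metric.ball 0 (ρ / C1 ^ 2) ⊆ SB F k ρ := by
  intro a ha
  rw [mem_ball_zero_iff] at ha
  have hC := hH.hC
  have hC0 : 0 < C1 := by linarith
  have h1 : C1 ^ 2 * ‖a‖ ≤ ρ := by
    rw [lt_div_iff₀ (by positivity)] at ha
    linarith
  have hn := norm_nonneg a
  have e1 : ‖a‖ ≤ C1 * ‖a‖ := by nlinarith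
  have e2 : C1 * ‖a‖ ≤ C1 ^ 2 * ‖a‖ := by nlinarith [mul_nonneg hC0.le hn]
  have st : ∀ (i : ℕ) (b : EE m), ‖b‖ ≤ ρ0 → ‖F i b‖ ≤ C1 * ‖b‖ := by
    intro i b hb
    have h := hH.lip (F i) (hF i).1 b 0 hb (by rw [norm_zero]; exact hH.hρ.le)
    rw [(hF i).2, sub_zero, sub_zero] at h
    exact h
  have s0 : ‖itr F 0 a‖ ≤ ρ := by
    show ‖a‖ ≤ ρ
    linarith
  have s1' : ‖itr F 1 a‖ ≤ C1 * ‖a‖ := st 0 a (by linarith)
  have s1 : ‖itr F 1 a‖ ≤ ρ := by linarith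
  have s2 : ‖itr F 2 a‖ ≤ ρ := by
    have h2 : ‖itr F 2 a‖ ≤ C1 * ‖itr F 1 a‖ := st 1 _ (by linarith)
    have h3 : C1 * ‖itr F 1 a‖ ≤ C1 * (C1 * ‖a‖) := mul_le_mul_of_nonneg_left s1' hC0.le
    have h4 : C1 * (C1 * ‖a‖) = C1 ^ 2 * ‖a‖ := by ring
    linarith
  intro i hi
  have hi2 : i ≤ 2 := hi.trans hk
  interval_cases i
  · exact s0
  · exact s1
  · exact s2

theorem GSB_proof : GSB_stmt := by
  intro m H C1 ρ0 hH
  refine ⟨GSB_zero, GSB_sub, fun F n ρ hρ hF => (GSB_cl hH F hρ n hF).1, ?_⟩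
  intro ρ' ρ hρ' hρρ hρ
  have hρp : 0 < ρ := lt_of_lt_of_le hρ' hρρ
  obtain ⟨Ca, hCa, ha⟩ := hH.gva ρ ρ hρp le_rfl hρ
  obtain ⟨Cb, hCb, hb⟩ := hH.gva ρ' ρ hρ' hρρ hρ
  have hC0 : 0 < C1 := lt_of_lt_of_le one_pos hH.hC
  have hvp : 0 < volume (Metric.ball (0 : EE m) (ρ / C1 ^ 2)) := Metric.measure_ball_pos volume 0 (by positivity)
  have hvf : volume (Metric.ball (0 : EE m) (ρ / C1 ^ 2)) < ⊤ := measure_ball_lt_top
  obtain ⟨w, hw⟩ : ∃ w : ℝ, w = (volume (Metric.ball (0 : EE m) (ρ / C1 ^ 2))).toReal := ⟨_, rfl⟩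
  have hw0 : 0 < w := by
    rw [hw]
    exact ENNReal.toReal_pos hvp.ne' hvf.ne
  have hwv : ENNReal.ofReal w = volume (Metric.ball (0 : EE m) (ρ / C1 ^ 2)) := by
    rw [hw, ENNReal.ofReal_toReal hvf.ne]
  refine ⟨(Ca ^ 2 * Cb)⁻¹ * w ^ 2, by positivity, ?_⟩
  intro n k F hF
  obtain ⟨X, hX⟩ : ∃ X, X = volume (SB F n ρ) := ⟨_, rfl⟩
  obtain ⟨Y, hY⟩ : ∃ Y, Y = volume (SB (fun i => F (n + 1 + i)) k ρ) := ⟨_, rfl⟩
  obtain ⟨X', hX'⟩ : ∃ X, X = volume (SB F (n + 1) ρ) := ⟨_, rfl⟩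
  obtain ⟨Y', hY'⟩ : ∃ Y, Y = volume (SB (fun i => F (n + 1 + i)) (k + 2) ρ) := ⟨_, rfl⟩
  have h1 : X * ENNReal.ofReal w ≤ ENNReal.ofReal Ca * X' := by
    rw [hX, hX', hwv]
    refine le_trans ?_ (ha n 1 F fun i _ => hF i)
    gcongr
    exact GSB_ball hH (fun i => F (n + i)) hρ (fun i => hF _) 1 (by norm_num)
  have h2 : Y * ENNReal.ofReal w ≤ ENNReal.ofReal Ca * Y' := by
    rw [hY, hY', hwv]
    refine le_trans ?_ (ha k 2 (fun i => F (n + 1 + i)) fun i _ => hF _)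
    gcongr
    exact GSB_ball hH (fun i => F (n + 1 + (k + i))) hρ (fun i => hF _) 2 le_rfl
  have h3 : X' * Y' ≤ ENNReal.ofReal Cb * volume (SB F (n + k + 3) ρ') := by
    rw [hX', hY']
    have h := hb (n + 1) (k + 2) F fun i _ => hF i
    rw [show n + 1 + (k + 2) = n + k + 3 by omega] at h
    exact h
  have h4 : ENNReal.ofReal (w ^ 2) * (X * Y) ≤ ENNReal.ofReal (Ca ^ 2 * Cb) * volume (SB F (n + k + 3) ρ') := by
    calc ENNReal.ofReal (w ^ 2) * (X * Y) = (X * ENNReal.ofReal w) * (Y * ENNReal.ofReal w) := by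
          rw [pow_two, ENNReal.ofReal_mul hw0.le]
          ring
      _ ≤ (ENNReal.ofReal Ca * X') * (ENNReal.ofReal Ca * Y') := mul_le_mul' h1 h2
      _ = ENNReal.ofReal (Ca ^ 2) * (X' * Y') := by
          rw [pow_two, ENNReal.ofReal_mul hCa.le]
          ring
      _ ≤ ENNReal.ofReal (Ca ^ 2) * (ENNReal.ofReal Cb * volume (SB F (n + k + 3) ρ')) := by gcongr
      _ = ENNReal.ofReal (Ca ^ 2 * Cb) * volume (SB F (n + k + 3) ρ') := by
          rw [ENNReal.ofReal_mul (by positivity)]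
          ring
  have hp : 0 < Ca ^ 2 * Cb := by positivity
  rw [← hX, ← hY, ENNReal.ofReal_mul (by positivity), mul_assoc]
  calc ENNReal.ofReal (Ca ^ 2 * Cb)⁻¹ * (ENNReal.ofReal (w ^ 2) * (X * Y))
      ≤ ENNReal.ofReal (Ca ^ 2 * Cb)⁻¹ * (ENNReal.ofReal (Ca ^ 2 * Cb) * volume (SB F (n + k + 3) ρ')) := by gcongr
    _ = volume (SB F (n + k + 3) ρ') := by
        rw [← mul_assoc, ← ENNReal.ofReal_mul (by positivity), inv_mul_cancel₀ hp.ne', ENNReal.ofReal_one, one_mul]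

end Pool.Agent.VDG
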