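import Pool.Agent.helper82.VD.SpecH

/-!
# MP_07c750, project VD, row HBB (the class HYP satisfies HB)
-/

set_option autoImplicit false

open MeasureTheory Filter Set Topology Pool.Agent.VDE Pool.Agent.VD
open scoped ENNReal

namespace Pool.Agent.VDG

theorem HBB_itr {m : ℕ} {F F' : ℕ → EE m → EE m} {N : ℕ} (h : ∀ i < N, F i = F' i) (i : ℕ) (hi : i ≤ N) (a : EE m) :
    itr F i a = it F' i a := by
  induction i with
  | zero => rfl
  | succ i ih =>
    show F i (itr F i a) = F' i (it F' i a)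
    rw [ih (by omega), h i (by omega)]

theorem HBB_SB {m : ℕ} {F F' : ℕ → EE m → EE m} {N : ℕ} (h : ∀ i < N, F i = F' i) (ρ : ℝ) :
    SB F N ρ = {a : Z m | ∀ i ≤ N, ‖it F' i a‖ ≤ ρ} := by
  ext a
  constructor
  · intro ha i hi
    rw [← HBB_itr h i hi a]
    exact ha i hi
  · intro ha i hi
    rw [HBB_itr h i hi a]
    exact ha i hi

theorem HBB_proof (hNFD : NFD_stmt) (hNSH : NSH_stmt) (hNGV : NGV_stmt) : HBB_stmt := by
  intro m c C e0 hc hC he0
  obtain ⟨ra, hra, hra0, hA⟩ := hNFD m c C e0 hc hC he0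
  obtain ⟨rb, rb2, μ, K, hrb, hrb0, hrb2, hμ, hK, hB⟩ := hNSH m c C e0 hc hC he0
  obtain ⟨rc, hrc, hrc0, hG⟩ := hNGV m c C e0 hc hC he0
  obtain ⟨ρ0, hρ0, hρa, hρb, hρb2, hρc⟩ : ∃ ρ0 : ℝ, 0 < ρ0 ∧ ρ0 ≤ ra ∧ ρ0 ≤ rb ∧ ρ0 ≤ rb2 ∧ ρ0 ≤ rc :=
    ⟨min (min ra rb) (min rb2 rc), by positivity, (min_le_left _ _).trans (min_le_left _ _),
      (min_le_left _ _).trans (min_le_right _ _), (min_le_right _ _).trans (min_le_left _ _),
      (min_le_right _ _).trans (min_le_right _ _)⟩
  obtain ⟨C1, hC1C, hC1c, hC1K⟩ : ∃ C1 : ℝ, C ≤ C1 ∧ 2 / c ≤ C1 ∧ K ≤ C1 :=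
    ⟨max (max C (2 / c)) K, (le_max_left _ _).trans (le_max_left _ _), (le_max_right _ _).trans (le_max_left _ _), le_max_right _ _⟩
  have hC11 : 1 ≤ C1 := hC.trans hC1C
  have hC10 : 0 < C1 := lt_of_lt_of_le one_pos hC11
  refine ⟨C1, ρ0, hρa.trans hra0, hC11, hρ0, ?_, ?_, ?_, ?_⟩
  · intro F hF a b ha hb
    have h := (hA F hF a b (ha.trans hρa) (hb.trans hρa)).2.1
    exact h.trans (mul_le_mul_of_nonneg_right hC1C (norm_nonneg _))
  · intro F hF h0 a ha
    have h := (hA F hF a 0 (ha.trans hρa) (by rw [norm_zero]; exact hra.le)).1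
    rw [h0, sub_zero, sub_zero] at h
    have h1 : C1⁻¹ ≤ c / 2 := by
      rw [inv_le_comm₀ hC10 (by positivity), inv_div]
      exact hC1c
    have h2 : C1⁻¹ * ‖a‖ ^ 2 ≤ c / 2 * ‖a‖ ^ 2 := mul_le_mul_of_nonneg_right h1 (by positivity)
    have h3 : qq a + C1⁻¹ * ‖a‖ ^ 2 ≤ QQ a + c / 2 * ‖a‖ ^ 2 := add_le_add (le_refl (qq a)) h2
    exact h3.trans h
  · intro n F δ hδ hδρ hF
    rcases Nat.eq_zero_or_pos n with hn | hn
    · subst hn
      refine ⟨fun _ => 0, fun i hi => absurd hi (Nat.not_lt_zero _), fun i _ => ?_⟩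
      rw [norm_zero]
      positivity
    · obtain ⟨F', hF'⟩ : ∃ F' : ℕ → Z m → Z m, F' = fun i => if i < n then F i else F 0 := ⟨_, rfl⟩
      have e1 : ∀ i < n, F' i = F i := by
        intro i hi
        rw [hF']
        simp only [hi, if_true]
      have e2 : ∀ i, HYP c C e0 (F' i) ∧ ‖F' i 0‖ ≤ δ := by
        intro i
        rcases Nat.lt_or_ge i n with hi | hi
        · rw [e1 i hi]
          exact hF i hi
        · have e3 : F' i = F 0 := by
            rw [hF']
            simp only [not_lt.2 hi, if_false]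
          rw [e3]
          exact hF 0 hn
      obtain ⟨a, ha, -, -, hb⟩ := hB F' n δ (fun i => (e2 i).1) hδ (hδρ.trans hρb2) (fun i => (e2 i).2) hn 0 0
        (by rw [norm_zero]; exact hrb2.le) (by rw [norm_zero]; exact hrb2.le)
      refine ⟨a, fun i hi => ?_, fun i hi => ?_⟩
      · rw [ha.1 i hi, e1 i hi]
      · have h := hb i hi
        rw [norm_zero, mul_zero, mul_zero, add_zero, add_zero] at h
        exact h.trans (mul_le_mul_of_nonneg_right hC1K hδ)
  · intro ρ' ρ hρ' hρρ hρ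
    have hρp : 0 < ρ := lt_of_lt_of_le hρ' hρρ
    obtain ⟨C', hC', hg⟩ := hG ρ' ρ hρ' hρρ (hρ.trans hρc)
    have hvp : 0 < volume (Metric.closedBall (0 : EE m) ρ') := Metric.measure_closedBall_pos volume 0 hρ'
    have hvf : volume (Metric.closedBall (0 : EE m) ρ') < ⊤ := measure_closedBall_lt_top
    have hwf : volume (Metric.closedBall (0 : EE m) ρ) < ⊤ := measure_closedBall_lt_top
    obtain ⟨u, hu⟩ : ∃ u : ℝ, u = (volume (Metric.closedBall (0 : EE m) ρ')).toReal := ⟨_, rfl⟩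
    obtain ⟨w, hw⟩ : ∃ w : ℝ, w = (volume (Metric.closedBall (0 : EE m) ρ)).toReal := ⟨_, rfl⟩
    have hu0 : 0 < u := by
      rw [hu]
      exact ENNReal.toReal_pos hvp.ne' hvf.ne
    have hw0 : 0 ≤ w := by
      rw [hw]
      exact ENNReal.toReal_nonneg
    have hue : volume (Metric.closedBall (0 : EE m) ρ') = ENNReal.ofReal u := by
      rw [hu, ENNReal.ofReal_toReal hvf.ne]
    have hwe : volume (Metric.closedBall (0 : EE m) ρ) = ENNReal.ofReal w := by
      rw [hw, ENNReal.ofReal_toReal hwf.ne]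
    refine ⟨max C' (w * w / u), lt_of_lt_of_le (lt_of_lt_of_le one_pos hC') (le_max_left _ _), ?_⟩
    intro n k F hF
    rcases Nat.eq_zero_or_pos (n + k) with hn | hn
    · obtain ⟨rfl, rfl⟩ : n = 0 ∧ k = 0 := by omega
      have hz : ∀ (F : ℕ → EE m → EE m) (ρ : ℝ), SB F 0 ρ = Metric.closedBall 0 ρ := by
        intro F ρ
        ext a
        rw [mem_closedBall_zero_iff]
        constructor
        · intro h
          exact h 0 le_rfl
        · intro h i hi
          obtain rfl : i = 0 := by omega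
          exact h
      rw [hz, hz, show 0 + 0 = 0 from rfl, hz, hwe, hue, ← ENNReal.ofReal_mul hw0, ← ENNReal.ofReal_mul (by positivity)]
      apply ENNReal.ofReal_le_ofReal
      have h1 : w * w / u * u = w * w := div_mul_cancel₀ _ hu0.ne'
      calc w * w = w * w / u * u := h1.symm
        _ ≤ max C' (w * w / u) * u := mul_le_mul_of_nonneg_right (le_max_right _ _) hu0.le
    · obtain ⟨F', hF'⟩ : ∃ F' : ℕ → Z m → Z m, F' = fun i => if i < n + k then F i else F 0 := ⟨_, rfl⟩
      have e1 : ∀ i < n + k, F i = F' i := by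
        intro i hi
        rw [hF']
        simp only [hi, if_true]
      have e2 : ∀ i, HYP c C e0 (F' i) ∧ F' i 0 = 0 := by
        intro i
        rcases Nat.lt_or_ge i (n + k) with hi | hi
        · rw [← e1 i hi]
          exact hF i hi
        · have e3 : F' i = F 0 := by
            rw [hF']
            simp only [not_lt.2 hi, if_false]
          rw [e3]
          exact hF 0 hn
      have h := hg F' n k (fun i => (e2 i).1) (fun i => (e2 i).2)
      rw [HBB_SB (F := F) (F' := F') (N := n) (fun i hi => e1 i (by omega)) ρ,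
        HBB_SB (F := fun i => F (n + i)) (F' := fun i => F' (n + i)) (N := k) (fun i hi => e1 (n + i) (by omega)) ρ,
        HBB_SB (F := F) (F' := F') (N := n + k) (fun i hi => e1 i hi) ρ']
      refine h.trans ?_
      gcongr
      exact le_max_left _ _

end Pool.Agent.VDG
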